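import Pool.Agent.L0h94.SL.Defs

/-!
# Project SL: (LSG) the odd primes of good reduction
-/

set_option autoImplicit false

namespace Pool.Agent.L0h57.SL

open Finset Pool.Agent.W262.RK Pool.Agent.L0h94.RZ Pool.Agent.L0h94.SL

section

variable {p : ℕ} [hp : Fact p.Prime]

theorem two_ne (hp2 : p ≠ 2) : (2 : ZMod p) ≠ 0 := by
  intro h
  have h1 : ((2 : ℕ) : ZMod p) = 0 := by exact_mod_cast h
  rw [ZMod.natCast_eq_zero_iff] at h1
  exact hp2 ((Nat.prime_dvd_prime_iff_eq hp.out Nat.prime_two).1 h1)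

open Polynomial in
/-- A unit whose residue is a square is a square (after `L0h74/AP/Loc.lean`). -/
theorem sq_of_residue (hp2 : p ≠ 2) (a b : ℤ) (hb : ¬ (p : ℤ) ∣ b)
    (h : (a : ZMod p) = (b : ZMod p) ^ 2) : IsSquare ((a : ℤ) : ℚ_[p]) := by
  have h2 : ¬ (p : ℤ) ∣ 2 := by
    intro h
    have h1 : p ∣ 2 := by exact_mod_cast h
    exact hp2 ((Nat.prime_dvd_prime_iff_eq hp.out Nat.prime_two).mp h1)
  have h2b : ¬ (p : ℤ) ∣ 2 * b := fun h =>
    (Int.Prime.dvd_mul' hp.out h).elim h2 hb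
  set u : ℤ_[p] := ((a : ℤ) : ℤ_[p]) with hu
  set F : ℤ_[p][X] := X ^ 2 - C u with hF
  have hder : ‖F.derivative.aeval ((b : ℤ) : ℤ_[p])‖ = 1 := by
    have e : F.derivative.aeval ((b : ℤ) : ℤ_[p]) = ((2 * b : ℤ) : ℤ_[p]) := by
      simp [hF]
      left
      norm_num
    rw [e]
    refine le_antisymm (PadicInt.norm_le_one _) ?_
    by_contra hc
    rw [not_le, PadicInt.norm_int_lt_one_iff_dvd] at hc
    exact h2b hc
  have hval : ‖F.aeval ((b : ℤ) : ℤ_[p])‖ < 1 := by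
    have e : F.aeval ((b : ℤ) : ℤ_[p]) = ((b ^ 2 - a : ℤ) : ℤ_[p]) := by simp [hF, hu]
    rw [e, PadicInt.norm_int_lt_one_iff_dvd]
    have h3 : ((b ^ 2 - a : ℤ) : ZMod p) = 0 := by push_cast; rw [h, sub_self]
    rwa [ZMod.intCast_zmod_eq_zero_iff_dvd] at h3
  obtain ⟨z, hz, -⟩ := hensels_lemma (p := p) (F := F) (a := ((b : ℤ) : ℤ_[p]))
    (by rw [hder]; simpa using hval)
  have e : F.aeval z = z ^ 2 - u := by simp [hF]
  rw [e, sub_eq_zero] at hz
  refine ⟨(z : ℚ_[p]), ?_⟩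
  have h5 := congrArg (fun x : ℤ_[p] => (x : ℚ_[p])) hz
  simp only [hu] at h5
  push_cast at h5
  rw [← h5, sq]

theorem sq_int (hp2 : p ≠ 2) (a : ℤ) (ha : ¬ (p : ℤ) ∣ a) (h : IsSquare (a : ZMod p)) :
    IsSquare ((a : ℤ) : ℚ_[p]) := by
  obtain ⟨c, hc⟩ := h
  have hc' : (((c.val : ℕ) : ℤ) : ZMod p) = c := by
    rw [Int.cast_natCast, ZMod.natCast_zmod_val]
  refine sq_of_residue hp2 a (c.val : ℤ) ?_ ?_
  · intro hd
    rw [← ZMod.intCast_zmod_eq_zero_iff_dvd, hc'] at hd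
    apply ha
    rw [← ZMod.intCast_zmod_eq_zero_iff_dvd, hc, hd, mul_zero]
  · rw [hc', hc, sq]

/-- an integer in the square class of `d` -/
theorem sqd (hp2 : p ≠ 2) {x d : ℤ} (hx : ¬ (p : ℤ) ∣ x) (hd : ¬ (p : ℤ) ∣ d)
    (h : IsSquare ((x * d : ℤ) : ZMod p)) :
    ∃ z : ℚ_[p], z ≠ 0 ∧ (x : ℚ_[p]) = (d : ℚ_[p]) * z ^ 2 := by
  have hxd : ¬ (p : ℤ) ∣ x * d := fun h => (Int.Prime.dvd_mul' hp.out h).elim hx hd
  obtain ⟨s, hs⟩ := sq_int hp2 (x * d) hxd h
  have hd0 : (d : ℚ_[p]) ≠ 0 := by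
    intro h0
    apply hd
    have : d = 0 := by exact_mod_cast h0
    rw [this]
    exact dvd_zero _
  have hx0 : (x : ℚ_[p]) ≠ 0 := by
    intro h0
    apply hx
    have : x = 0 := by exact_mod_cast h0
    rw [this]
    exact dvd_zero _
  have hs' : (x : ℚ_[p]) * (d : ℚ_[p]) = s * s := by
    rw [← hs]; push_cast; rfl
  refine ⟨s / d, ?_, ?_⟩
  · refine div_ne_zero ?_ hd0
    rintro rfl
    rw [mul_zero] at hs'
    exact (mul_ne_zero hx0 hd0) hs'
  · field_simp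
    rw [hs']
    ring

/-- lifting a point of the reduction -/
theorem lift_pt (hp2 : p ≠ 2) (r d : Fin 3 → ℤ) (hr : ∀ i j, i ≠ j → ¬ (p : ℤ) ∣ r i - r j)
    (hd : ∀ n, ¬ (p : ℤ) ∣ d n) (y : ℤ)
    (h : ∀ n, (p : ℤ) ∣ y - r n ∨ IsSquare (((y - r n) * d n : ℤ) : ZMod p)) :
    LocSol ℚ_[p] r d := by
  have hp0 : ((p : ℕ) : ℚ_[p]) ≠ 0 := by exact_mod_cast hp.out.ne_zero
  have hpz : ((p : ℤ) : ZMod p) = 0 := by
    rw [Int.cast_natCast, ZMod.natCast_self]
  by_cases hex : ∃ n, (p : ℤ) ∣ y - r n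
  · obtain ⟨n, hn⟩ := hex
    refine ⟨(r n : ℚ_[p]) + (d n : ℚ_[p]) * (p : ℚ_[p]) ^ 2, ?_⟩
    intro m
    by_cases hmn : m = n
    · subst hmn
      exact ⟨p, hp0, by ring⟩
    · have hm : ¬ (p : ℤ) ∣ y - r m := by
        intro h1
        apply hr n m (Ne.symm hmn)
        have := dvd_sub h1 hn
        have e : y - r m - (y - r n) = r n - r m := by ring
        rwa [e] at this
      have hm2 : IsSquare (((y - r m) * d m : ℤ) : ZMod p) := (h m).resolve_left hm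
      have e1 : ((r n + d n * (p : ℤ) ^ 2 - r m : ℤ) : ZMod p) = ((y - r m : ℤ) : ZMod p) := by
        have h3 : ((y - r n : ℤ) : ZMod p) = 0 := (ZMod.intCast_zmod_eq_zero_iff_dvd _ _).2 hn
        push_cast at h3 ⊢
        have h4 : ((p : ℕ) : ZMod p) = 0 := ZMod.natCast_self p
        rw [h4]
        linear_combination -h3
      have hX : ¬ (p : ℤ) ∣ r n + d n * (p : ℤ) ^ 2 - r m := by
        intro h1
        apply hm
        rw [← ZMod.intCast_zmod_eq_zero_iff_dvd] at h1 ⊢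
        rw [← e1]
        exact h1
      obtain ⟨z, hz, hz2⟩ := sqd hp2 hX (hd m) (by
        rw [Int.cast_mul, e1, ← Int.cast_mul]
        exact hm2)
      refine ⟨z, hz, ?_⟩
      rw [← hz2]
      push_cast
      ring
  · push Not at hex
    refine ⟨(y : ℚ_[p]), ?_⟩
    intro n
    obtain ⟨z, hz, hz2⟩ := sqd hp2 (hex n) (hd n) ((h n).resolve_left (hex n))
    refine ⟨z, hz, ?_⟩
    rw [← hz2]
    push_cast
    ring

open Classical in
/-- few `z` with `z ^ 2 - a` a nonzero square -/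
theorem count (hp2 : p ≠ 2) (a : ZMod p) (ha : a ≠ 0) :
    (univ.filter (fun z : ZMod p => ∃ y, y ≠ 0 ∧ z ^ 2 - a = y ^ 2)).card * 2 ≤ p - 1 := by
  have h2 := two_ne (p := p) hp2
  let B : Finset (ZMod p) := univ.filter (fun z : ZMod p => ∃ y, y ≠ 0 ∧ z ^ 2 - a = y ^ 2)
  let Y : ZMod p → ZMod p := fun z => if h : ∃ y, y ≠ 0 ∧ z ^ 2 - a = y ^ 2 then h.choose else 0
  have hY : ∀ z ∈ B, Y z ≠ 0 ∧ z ^ 2 - a = Y z ^ 2 := by
    intro z hz
    have h := (Finset.mem_filter.1 hz).2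
    have e : Y z = h.choose := dif_pos h
    rw [e]
    exact h.choose_spec
  let f : ZMod p × Bool → ZMod p := fun x => x.1 + (if x.2 then Y x.1 else - Y x.1)
  have hs : ∀ x : ZMod p × Bool, x.1 ∈ B → f x * (2 * x.1 - f x) = a := by
    intro x hx
    have h1 := (hY x.1 hx).2
    obtain ⟨z, b⟩ := x
    cases b
    · show (z + -Y z) * (2 * z - (z + -Y z)) = a
      have h1' : z ^ 2 - a = Y z ^ 2 := h1
      linear_combination h1'
    · show (z + Y z) * (2 * z - (z + Y z)) = a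
      have h1' : z ^ 2 - a = Y z ^ 2 := h1
      linear_combination h1'
  have hcard : (B ×ˢ (univ : Finset Bool)).card ≤ ((univ : Finset (ZMod p)).erase 0).card := by
    refine Finset.card_le_card_of_injOn f ?_ ?_
    · intro x hx
      have hx' : x.1 ∈ B := (Finset.mem_product.1 hx).1
      refine Finset.mem_erase.2 ⟨?_, Finset.mem_univ _⟩
      intro h0
      have := hs x hx'
      rw [h0, zero_mul] at this
      exact ha this.symm
    · intro x hx x' hx' hxx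
      have hx1 : x.1 ∈ B := (Finset.mem_product.1 hx).1
      have hx1' : x'.1 ∈ B := (Finset.mem_product.1 hx').1
      have e1 := hs x hx1
      have e2 := hs x' hx1'
      have hf0 : f x ≠ 0 := by
        intro h0
        rw [h0, zero_mul] at e1
        exact ha e1.symm
      rw [← hxx] at e2
      have e3 : 2 * x.1 - f x = 2 * x'.1 - f x := mul_left_cancel₀ hf0 (e1.trans e2.symm)
      have e4 : x.1 = x'.1 := by
        apply mul_left_cancel₀ h2
        linear_combination e3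
      obtain ⟨z, b⟩ := x
      obtain ⟨z', b'⟩ := x'
      simp only at e4
      subst e4
      have hYz := (hY z hx1).1
      cases b <;> cases b'
      · rfl
      · exfalso
        have h5 : z + -Y z = z + Y z := hxx
        apply mul_ne_zero h2 hYz
        linear_combination -h5
      · exfalso
        have h5 : z + Y z = z + -Y z := hxx
        apply mul_ne_zero h2 hYz
        linear_combination h5
      · rfl
  rw [Finset.card_product, Finset.card_univ, Fintype.card_bool,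
    Finset.card_erase_of_mem (Finset.mem_univ _), Finset.card_univ, ZMod.card] at hcard
  exact hcard

open Classical in
theorem exists_z (hp2 : p ≠ 2) (a c : ZMod p) (ha : a ≠ 0) (hc : c ≠ 0) :
    ∃ z : ZMod p, (¬ ∃ y, y ≠ 0 ∧ z ^ 2 - a = y ^ 2) ∧ ¬ ∃ y, y ≠ 0 ∧ z ^ 2 - c = y ^ 2 := by
  by_contra hcon
  push Not at hcon
  have h1 := count hp2 a ha
  have h2 := count hp2 c hc
  have h3 : (univ : Finset (ZMod p)) ⊆
      (univ.filter (fun z : ZMod p => ∃ y, y ≠ 0 ∧ z ^ 2 - a = y ^ 2)) ∪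
      (univ.filter (fun z : ZMod p => ∃ y, y ≠ 0 ∧ z ^ 2 - c = y ^ 2)) := by
    intro z _
    rw [Finset.mem_union, Finset.mem_filter, Finset.mem_filter]
    by_cases h : ∃ y, y ≠ 0 ∧ z ^ 2 - a = y ^ 2
    · exact Or.inl ⟨Finset.mem_univ _, h⟩
    · right
      refine ⟨Finset.mem_univ _, ?_⟩
      push Not at h
      exact hcon z h
  have h4 := (Finset.card_le_card h3).trans (Finset.card_union_le _ _)
  rw [Finset.card_univ, ZMod.card] at h4
  have h5 := hp.out.one_lt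
  omega

theorem sq_mul {u v : ZMod p} (hu : ¬ IsSquare u) (hv : ¬ IsSquare v) : IsSquare (u * v) := by
  have hu0 : u ≠ 0 := by
    rintro rfl
    exact hu ⟨0, by ring⟩
  have hv0 : v ≠ 0 := by
    rintro rfl
    exact hv ⟨0, by ring⟩
  have h1 := (quadraticChar_neg_one_iff_not_isSquare (F := ZMod p)).2 hu
  have h2 := (quadraticChar_neg_one_iff_not_isSquare (F := ZMod p)).2 hv
  rw [← quadraticChar_one_iff_isSquare (mul_ne_zero hu0 hv0), map_mul, h1, h2]
  norm_num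

/-- two nonsquares -/
theorem caseB (hp2 : p ≠ 2) (r d : Fin 3 → ℤ) (hr : ∀ i j, i ≠ j → ¬ (p : ℤ) ∣ r i - r j)
    (hd : ∀ n, ¬ (p : ℤ) ∣ d n) (k i j : Fin 3) (hki : i ≠ k) (hkj : j ≠ k)
    (hall : ∀ n, n = k ∨ n = i ∨ n = j) (h1 : IsSquare (d k : ZMod p))
    (h2 : ¬ IsSquare (d i : ZMod p)) (h3 : ¬ IsSquare (d j : ZMod p)) :
    LocSol ℚ_[p] r d := by
  have ha : ((r i - r k : ℤ) : ZMod p) ≠ 0 := by
    rw [Ne, ZMod.intCast_zmod_eq_zero_iff_dvd]
    exact hr i k hki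
  have hc : ((r j - r k : ℤ) : ZMod p) ≠ 0 := by
    rw [Ne, ZMod.intCast_zmod_eq_zero_iff_dvd]
    exact hr j k hkj
  obtain ⟨z, hz1, hz2⟩ := exists_z hp2 _ _ ha hc
  have hz' : (((z.val : ℕ) : ℤ) : ZMod p) = z := by
    rw [Int.cast_natCast, ZMod.natCast_zmod_val]
  have key : ∀ n : Fin 3, ¬ IsSquare (d n : ZMod p) →
      (¬ ∃ y, y ≠ 0 ∧ z ^ 2 - ((r n - r k : ℤ) : ZMod p) = y ^ 2) →
      (p : ℤ) ∣ (r k + (z.val : ℤ) ^ 2) - r n ∨
        IsSquare ((((r k + (z.val : ℤ) ^ 2) - r n) * d n : ℤ) : ZMod p) := by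
    intro n hn hz
    have e : (((r k + (z.val : ℤ) ^ 2) - r n : ℤ) : ZMod p) =
        z ^ 2 - ((r n - r k : ℤ) : ZMod p) := by
      rw [Int.cast_sub, Int.cast_add, Int.cast_pow, hz', Int.cast_sub]
      ring
    by_cases h0 : z ^ 2 - ((r n - r k : ℤ) : ZMod p) = 0
    · left
      rw [← ZMod.intCast_zmod_eq_zero_iff_dvd, e, h0]
    · right
      rw [Int.cast_mul, e]
      refine sq_mul ?_ hn
      rintro ⟨y, hy⟩
      apply hz
      refine ⟨y, ?_, by rw [hy, sq]⟩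
      rintro rfl
      rw [mul_zero] at hy
      exact h0 hy
  refine lift_pt hp2 r d hr hd (r k + (z.val : ℤ) ^ 2) ?_
  intro n
  rcases hall n with rfl | rfl | rfl
  · right
    obtain ⟨s, hs⟩ := h1
    refine ⟨z * s, ?_⟩
    rw [Int.cast_mul, hs, Int.cast_sub, Int.cast_add, Int.cast_pow, hz']
    ring
  · exact key _ h2 hz1
  · exact key _ h3 hz2

/-- three squares -/
theorem caseA (hp2 : p ≠ 2) (r d : Fin 3 → ℤ) (hd : ∀ n, ¬ (p : ℤ) ∣ d n)
    (h : ∀ n, IsSquare (d n : ZMod p)) : LocSol ℚ_[p] r d := by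
  have hp0 : ((p : ℕ) : ℚ_[p]) ≠ 0 := by exact_mod_cast hp.out.ne_zero
  refine ⟨((p : ℚ_[p]) ^ 2)⁻¹, ?_⟩
  intro n
  have e : ((1 - r n * (p : ℤ) ^ 2 : ℤ) : ZMod p) = 1 := by
    push_cast
    have h4 : ((p : ℕ) : ZMod p) = 0 := ZMod.natCast_self p
    rw [h4]
    ring
  obtain ⟨z, hz, hz2⟩ := sqd hp2 (x := 1 - r n * (p : ℤ) ^ 2) (d := d n) (by
    rw [← ZMod.intCast_zmod_eq_zero_iff_dvd, e]
    exact one_ne_zero) (hd n) (by
    rw [Int.cast_mul, e, one_mul]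
    exact h n)
  refine ⟨z / p, div_ne_zero hz hp0, ?_⟩
  push_cast at hz2
  rw [div_pow, ← mul_div_assoc, ← hz2]
  field_simp

end

/-- (LSG) -/
theorem lsg : S_LSG := by
  intro p hp hp2 r d hr hd hsq
  have hd0 : ∀ n, (d n : ZMod p) ≠ 0 := by
    intro n
    rw [Ne, ZMod.intCast_zmod_eq_zero_iff_dvd]
    exact hd n
  have hprod : IsSquare ((d 0 : ZMod p) * (d 1 : ZMod p) * (d 2 : ZMod p)) := by
    obtain ⟨s, hs⟩ := hsq
    refine ⟨(s : ZMod p), ?_⟩
    have := congrArg (fun x : ℤ => (x : ZMod p)) hs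
    push_cast at this
    exact this
  have hprod' : quadraticChar (ZMod p) (d 0 : ZMod p) * quadraticChar (ZMod p) (d 1 : ZMod p) *
      quadraticChar (ZMod p) (d 2 : ZMod p) = 1 := by
    rw [← map_mul, ← map_mul, quadraticChar_one_iff_isSquare
      (mul_ne_zero (mul_ne_zero (hd0 0) (hd0 1)) (hd0 2))]
    exact hprod
  have hcase : ∀ n, (IsSquare (d n : ZMod p) ∧ quadraticChar (ZMod p) (d n : ZMod p) = 1) ∨
      (¬ IsSquare (d n : ZMod p) ∧ quadraticChar (ZMod p) (d n : ZMod p) = -1) := by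
    intro n
    by_cases h : IsSquare (d n : ZMod p)
    · exact Or.inl ⟨h, (quadraticChar_one_iff_isSquare (hd0 n)).2 h⟩
    · exact Or.inr ⟨h, (quadraticChar_neg_one_iff_not_isSquare).2 h⟩
  rcases hcase 0 with ⟨a0, b0⟩ | ⟨a0, b0⟩ <;> rcases hcase 1 with ⟨a1, b1⟩ | ⟨a1, b1⟩ <;>
    rcases hcase 2 with ⟨a2, b2⟩ | ⟨a2, b2⟩ <;> rw [b0, b1, b2] at hprod'
  · refine caseA hp2 r d hd ?_
    intro n
    fin_cases n
    · exact a0
    · exact a1
    · exact a2
  · norm_num at hprod'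
  · norm_num at hprod'
  · exact caseB hp2 r d hr hd 0 1 2 (by decide) (by decide) (by decide) a0 a1 a2
  · norm_num at hprod'
  · exact caseB hp2 r d hr hd 1 0 2 (by decide) (by decide) (by decide) a1 a0 a2
  · exact caseB hp2 r d hr hd 2 0 1 (by decide) (by decide) (by decide) a2 a0 a1
  · norm_num at hprod'

end Pool.Agent.L0h57.SL
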