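import Pool.Agent.L0h94.SL.Defs

/-!
# Project SL: (LSR) the real numbers, and (ST) the two steering steps
-/

set_option autoImplicit false

namespace Pool.Agent.L0h57.SL

open Finset Pool.Agent.W262.RK Pool.Agent.L0h94.RZ Pool.Agent.L0h94.SL

theorem real_pt {a e : ℝ} (he : e ≠ 0) (h : 0 < a / e) : ∃ z : ℝ, z ≠ 0 ∧ a = e * z ^ 2 := by
  refine ⟨Real.sqrt (a / e), (Real.sqrt_pos.2 h).ne', ?_⟩
  rw [Real.sq_sqrt h.le]
  field_simp

/-- (LSR) -/
theorem lsr : S_LSR := by
  intro o u b w g e1 e2 e3 h
  obtain ⟨-, -, -, h1, h23, -, -, -, -, -⟩ := h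
  have hb := g.hb
  have hu : 0 < u := by
    have := g.hu
    omega
  have hw : 0 < w := by
    have := g.hw
    omega
  have hbR : (b : ℝ) = (u : ℝ) + 4 * (w : ℝ) := by
    rw [hb]; push_cast; ring
  have huR : (0 : ℝ) < u := by exact_mod_cast hu
  have hwR : (0 : ℝ) < w := by exact_mod_cast hw
  have hm0 : (0 : ℝ) < ((mo o u w : ℤ) : ℝ) := by
    cases o
    · show (0 : ℝ) < ((4 * (w : ℤ) : ℤ) : ℝ)
      push_cast
      linarith
    · show (0 : ℝ) < ((u : ℤ) : ℝ)
      push_cast
      linarith
  have hmb : ((mo o u w : ℤ) : ℝ) < (b : ℝ) := by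
    rw [hbR]
    cases o
    · show ((4 * (w : ℤ) : ℤ) : ℝ) < _
      push_cast
      linarith
    · show ((u : ℤ) : ℝ) < _
      push_cast
      linarith
  have h1R : (0 : ℝ) < (e1 : ℝ) := by exact_mod_cast h1
  rcases lt_trichotomy e3 0 with h3 | h3 | h3
  · have h2 : e2 < 0 := by
      by_contra h2
      rw [not_lt] at h2
      have := mul_nonpos_of_nonneg_of_nonpos h2 h3.le
      omega
    have h2R : (e2 : ℝ) < 0 := by exact_mod_cast h2
    have h3R : (e3 : ℝ) < 0 := by exact_mod_cast h3
    refine ⟨((mo o u w : ℤ) : ℝ) / 2, ?_⟩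
    intro i
    fin_cases i
    · show ∃ z : ℝ, z ≠ 0 ∧ ((mo o u w : ℤ) : ℝ) / 2 - (((0 : ℤ)) : ℝ) = (e1 : ℝ) * z ^ 2
      refine real_pt h1R.ne' (div_pos ?_ h1R)
      push_cast
      linarith
    · show ∃ z : ℝ, z ≠ 0 ∧ ((mo o u w : ℤ) : ℝ) / 2 - ((mo o u w : ℤ) : ℝ) = (e2 : ℝ) * z ^ 2
      exact real_pt h2R.ne (div_pos_of_neg_of_neg (by linarith) h2R)
    · show ∃ z : ℝ, z ≠ 0 ∧ ((mo o u w : ℤ) : ℝ) / 2 - (((b : ℕ) : ℤ) : ℝ) = (e3 : ℝ) * z ^ 2
      refine real_pt h3R.ne (div_pos_of_neg_of_neg ?_ h3R)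
      push_cast
      linarith
  · rw [h3, mul_zero] at h23
    exact absurd h23 (lt_irrefl _)
  · have h2 : 0 < e2 := (mul_pos_iff_of_pos_right h3).1 h23
    have h2R : (0 : ℝ) < (e2 : ℝ) := by exact_mod_cast h2
    have h3R : (0 : ℝ) < (e3 : ℝ) := by exact_mod_cast h3
    refine ⟨(b : ℝ) + 1, ?_⟩
    intro i
    fin_cases i
    · show ∃ z : ℝ, z ≠ 0 ∧ (b : ℝ) + 1 - (((0 : ℤ)) : ℝ) = (e1 : ℝ) * z ^ 2
      refine real_pt h1R.ne' (div_pos ?_ h1R)
      push_cast
      linarith
    · show ∃ z : ℝ, z ≠ 0 ∧ (b : ℝ) + 1 - ((mo o u w : ℤ) : ℝ) = (e2 : ℝ) * z ^ 2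
      exact real_pt h2R.ne' (div_pos (by linarith) h2R)
    · show ∃ z : ℝ, z ≠ 0 ∧ (b : ℝ) + 1 - (((b : ℕ) : ℤ) : ℝ) = (e3 : ℝ) * z ^ 2
      refine real_pt h3R.ne' (div_pos ?_ h3R)
      push_cast
      linarith

/-! ### steering -/

/-- (STD) -/
theorem std (hS : S_STEER) : S_STD := by
  intro K S cl τ hS1 hQ
  by_cases h0 : cork false S cl τ = 0 ∧ cork true S cl τ = 0
  · left
    intro o
    cases o
    · show cork false S cl τ ≤ K
      rw [h0.1]; exact Nat.zero_le _
    · show cork true S cl τ ≤ K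
      rw [h0.2]; exact Nat.zero_le _
  · right
    obtain ⟨χ, T, hT, hT2⟩ := hS S cl τ hS1 h0
    -- the right hand sides
    obtain ⟨f, hf⟩ : ∃ f : ℕ → ZMod 2, ∀ o, ∑ p ∈ T o, f p = 1 := by
      by_cases hab : ∃ a, a ∈ T false ∧ a ∈ T true
      · obtain ⟨a, ha, hb⟩ := hab
        refine ⟨fun p => if p = a then 1 else 0, ?_⟩
        intro o
        rw [Finset.sum_ite_eq' (T o) a (fun _ => (1 : ZMod 2)), if_pos]
        cases o
        · exact ha
        · exact hb
      · push Not at hab
        obtain ⟨a, ha⟩ := (hT false).1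
        obtain ⟨b, hb⟩ := (hT true).1
        have ha' : a ∉ T true := hab a ha
        have hb' : b ∉ T false := fun h => hab b h hb
        refine ⟨fun p => (if p = a then 1 else 0) + (if p = b then 1 else 0), ?_⟩
        intro o
        rw [Finset.sum_add_distrib, Finset.sum_ite_eq' (T o) a (fun _ => (1 : ZMod 2)),
          Finset.sum_ite_eq' (T o) b (fun _ => (1 : ZMod 2))]
        cases o
        · rw [if_pos ha, if_neg hb', add_zero]
        · rw [if_neg ha', if_pos hb, zero_add]
    refine ⟨χ, {T false, T true}, f, Finset.card_le_two, ?_, ?_⟩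
    · intro U hU
      rw [Finset.mem_insert, Finset.mem_singleton] at hU
      rcases hU with rfl | rfl
      · exact (hT false).2
      · exact (hT true).2
    · intro l hl hlS hl8 hsum
      obtain ⟨d, hd⟩ := hT2 l hl hlS hl8 (by
        intro o
        have hmem : T o ∈ ({T false, T true} : Finset (Finset ℕ)) := by
          rw [Finset.mem_insert, Finset.mem_singleton]
          cases o
          · exact Or.inl rfl
          · exact Or.inr rfl
        rw [hsum (T o) hmem, hf o])
      refine ⟨d, ?_⟩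
      intro o
      show cork o (insert l S) (Function.update cl l χ) (Function.update τ l d) ≤ K
      rw [hd o]
      have h5 : cork o S cl τ ≤ K + 1 := hQ o
      omega

/-- (STU) -/
theorem stu (hU : S_UPS) : S_STU := by
  intro a n S cl τ hS1 hQ
  obtain ⟨q1, q2, q3, q4⟩ := hQ
  have qf : cork false S cl τ ≤ a := q1 false
  have qt : cork true S cl τ ≤ a := q1 true
  by_cases h0 : 2 * a ≤ cork false S cl τ + cork true S cl τ + n + 2
  · left
    exact ⟨q1, q2, q3, h0⟩
  · right
    rw [not_le] at h0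
    have h0' : cork false S cl τ + cork true S cl τ + n + 2 < 2 * a := h0
    have q4' : 2 * a ≤ cork false S cl τ + cork true S cl τ + (n + 1) + 2 := q4
    have q2' : cork false S cl τ ≤ cork true S cl τ + 1 := q2
    have q3' : cork true S cl τ ≤ cork false S cl τ + 1 := q3
    obtain ⟨o0, ho0⟩ : ∃ o0 : Bool, cork o0 S cl τ ≤ cork (!o0) S cl τ := by
      rcases le_total (cork false S cl τ) (cork true S cl τ) with h | h
      · exact ⟨false, h⟩
      · exact ⟨true, h⟩
    obtain ⟨𝒯, hc, hsub, hmain⟩ := hU S cl τ o0 hS1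
    refine ⟨0, 𝒯, fun _ => 0, ?_, hsub, ?_⟩
    · calc 𝒯.card ≤ 2 ^ cork false S cl τ + 2 ^ cork true S cl τ := hc
        _ ≤ 2 ^ a + 2 ^ a := Nat.add_le_add (Nat.pow_le_pow_right (by norm_num) qf)
          (Nat.pow_le_pow_right (by norm_num) qt)
        _ = 2 ^ (a + 1) := by rw [pow_succ]; ring
    · intro l hl hlS hl8 hsum
      obtain ⟨d, hd1, hd2⟩ := hmain l hl hlS hl8 (by
        intro T hT
        rw [hsum T hT, Finset.sum_const_zero])
      refine ⟨d, ?_⟩
      have hf := hd1 false
      have ht := hd1 true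
      refine ⟨?_, ?_, ?_, ?_⟩
      · intro o
        show cork o (insert l S) (Function.update cl l 0) (Function.update τ l d) ≤ a
        cases o
        · omega
        · omega
      · show cork false (insert l S) (Function.update cl l 0) (Function.update τ l d) ≤
          cork true (insert l S) (Function.update cl l 0) (Function.update τ l d) + 1
        cases o0
        · have : cork false S cl τ ≤ cork true S cl τ := ho0
          omega
        · have : cork true S cl τ ≤ cork false S cl τ := ho0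
          omega
      · show cork true (insert l S) (Function.update cl l 0) (Function.update τ l d) ≤
          cork false (insert l S) (Function.update cl l 0) (Function.update τ l d) + 1
        cases o0
        · have : cork false S cl τ ≤ cork true S cl τ := ho0
          omega
        · have : cork true S cl τ ≤ cork false S cl τ := ho0
          omega
      · show 2 * a ≤ cork false (insert l S) (Function.update cl l 0) (Function.update τ l d) +
          cork true (insert l S) (Function.update cl l 0) (Function.update τ l d) + n + 2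
        cases o0
        · omega
        · omega

end Pool.Agent.L0h57.SL
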